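import Mathlib

/-!
# QL-P1: averaging over balls
-/

open MeasureTheory Real Set Filter Topology

set_option autoImplicit false

namespace Pool.Agent.Helper3.QL

variable {E : Type} [MeasurableSpace E] [PseudoMetricSpace E] [SecondCountableTopology E] [OpensMeasurableSpace E]

private theorem dist_meas (r : ℝ) : MeasurableSet {q : E × E | dist q.2 q.1 ≤ r} :=
  measurableSet_le (measurable_snd.dist measurable_fst) measurable_const

/-- the double integral over pairs at distance at most `r` -/
theorem swap_ball (μ : Measure E) [SFinite μ] {F : E → ENNReal} (hF : Measurable F) {K : Set E} (r : ℝ) :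
    ∫⁻ z in K, ∫⁻ A in Metric.closedBall z r, F A ∂μ ∂μ = ∫⁻ A, F A * μ (K ∩ Metric.closedBall A r) ∂μ := by
  have hm : Measurable (fun q : E × E => ({q : E × E | dist q.2 q.1 ≤ r}.indicator (fun q => F q.2) q)) :=
    (hF.comp measurable_snd).indicator (dist_meas r)
  have h1 : ∀ z, ∫⁻ A in Metric.closedBall z r, F A ∂μ = ∫⁻ A, {q : E × E | dist q.2 q.1 ≤ r}.indicator (fun q => F q.2) (z, A) ∂μ := by
    intro z
    rw [← lintegral_indicator measurableSet_closedBall]
    refine lintegral_congr fun A => ?_
    by_cases h : dist A z ≤ r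
    · rw [indicator_of_mem (by exact h), indicator_of_mem (by exact h)]
    · rw [indicator_of_notMem (by exact h), indicator_of_notMem (by exact h)]
  simp only [h1]
  rw [lintegral_lintegral_swap (by exact hm.aemeasurable)]
  refine lintegral_congr fun A => ?_
  have h2 : ∀ z, {q : E × E | dist q.2 q.1 ≤ r}.indicator (fun q => F q.2) (z, A) = (Metric.closedBall A r).indicator (fun _ => F A) z := by
    intro z
    by_cases h : dist A z ≤ r
    · rw [indicator_of_mem (by exact h), indicator_of_mem (by rw [Metric.mem_closedBall, dist_comm]; exact h)]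
    · rw [indicator_of_notMem (by exact h), indicator_of_notMem (by rw [Metric.mem_closedBall, dist_comm]; exact h)]
  simp only [h2]
  rw [lintegral_indicator measurableSet_closedBall, lintegral_const, Measure.restrict_apply MeasurableSet.univ, univ_inter,
    Measure.restrict_apply measurableSet_closedBall, inter_comm]

theorem avg_low (μ : Measure E) [SFinite μ] {F : E → ENNReal} (hF : Measurable F) {K K' : Set E} (hK : MeasurableSet K) {r : ℝ} {V : ENNReal}
    (hV : ∀ z, μ (Metric.closedBall z r) = V) (h : ∀ A ∈ K, Metric.closedBall A r ⊆ K') :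
    V * (∫⁻ A in K, F A ∂μ) ≤ ∫⁻ z in K', ∫⁻ A in Metric.closedBall z r, F A ∂μ ∂μ := by
  rw [swap_ball μ hF r, ← lintegral_const_mul _ hF, ← lintegral_indicator hK]
  refine lintegral_mono fun A => ?_
  by_cases hA : A ∈ K
  · rw [indicator_of_mem hA, mul_comm, inter_eq_self_of_subset_right (h A hA), hV A]
  · rw [indicator_of_notMem hA]
    exact bot_le

theorem avg_up (μ : Measure E) [SFinite μ] {F : E → ENNReal} (hF : Measurable F) {K K' : Set E} (hK' : MeasurableSet K') {r : ℝ} {V : ENNReal}
    (hV : ∀ z, μ (Metric.closedBall z r) = V) (h : ∀ z ∈ K, Metric.closedBall z r ⊆ K') :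
    ∫⁻ z in K, ∫⁻ A in Metric.closedBall z r, F A ∂μ ∂μ ≤ V * ∫⁻ A in K', F A ∂μ := by
  rw [swap_ball μ hF r, ← lintegral_const_mul _ hF, ← lintegral_indicator hK']
  refine lintegral_mono fun A => ?_
  by_cases hA : A ∈ K'
  · rw [indicator_of_mem hA, mul_comm]
    refine mul_le_mul' ?_ le_rfl
    rw [← hV A]
    exact measure_mono inter_subset_right
  · rw [indicator_of_notMem hA]
    have : K ∩ Metric.closedBall A r = ∅ := by
      ext z
      simp only [mem_inter_iff, Metric.mem_closedBall, mem_empty_iff_false, iff_false, not_and]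
      intro hz hd
      exact hA (h z hz (by rw [Metric.mem_closedBall, dist_comm]; exact hd))
    rw [this, measure_empty, mul_zero]

end Pool.Agent.Helper3.QL
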