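import Mathlib

/-!
# QL-P2: Minkowski's inequality for `L^(10)` and finite sums, `lintegral` form
-/

open MeasureTheory Real Set Filter Topology

set_option autoImplicit false

namespace Pool.Agent.Helper3.QL

/-- `(∫ (∑ g_j^(1/10))^10)^(1/10) ≤ ∑ (∫ g_j)^(1/10)` -/
theorem mink {α ι : Type} [MeasurableSpace α] (μ : Measure α) (s : Finset ι) (g : ι → α → ENNReal)
    (hg : ∀ j ∈ s, Measurable (g j)) :
    (∫⁻ z, (∑ j ∈ s, (g j z) ^ (1 / 10 : ℝ)) ^ (10 : ℝ) ∂μ) ^ (1 / 10 : ℝ) ≤ ∑ j ∈ s, (∫⁻ z, g j z ∂μ) ^ (1 / 10 : ℝ) := by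
  classical
  induction s using Finset.induction_on with
  | empty =>
    simp
  | insert i s hi ih =>
    have hs : ∀ j ∈ s, Measurable (g j) := fun j hj => hg j (Finset.mem_insert_of_mem hj)
    have hi' : Measurable (g i) := hg i (Finset.mem_insert_self i s)
    have h1 := ENNReal.lintegral_Lp_add_le (μ := μ) (p := 10) (f := fun z => (g i z) ^ (1 / 10 : ℝ))
      (g := fun z => ∑ j ∈ s, (g j z) ^ (1 / 10 : ℝ)) (hi'.pow_const _).aemeasurable
      (Finset.measurable_fun_sum s fun j hj => (hs j hj).pow_const _).aemeasurable (by norm_num)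
    have h2 : ∀ z, ((g i z) ^ (1 / 10 : ℝ)) ^ (10 : ℝ) = g i z := by
      intro z
      rw [← ENNReal.rpow_mul]
      norm_num
    rw [Finset.sum_insert hi]
    simp only [Finset.sum_insert hi]
    refine (le_of_eq ?_).trans (h1.trans (add_le_add ?_ (ih hs)))
    · simp only [Pi.add_apply]
    · simp only [h2]
      exact le_rfl

end Pool.Agent.Helper3.QL
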