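import Pool.Agent.Helper60.QL.Defs

/-!
# QL-O1: the regions `OM`, boxes and cubes, averaging over boxes
-/

open MeasureTheory Real Set Filter Topology

set_option autoImplicit false

namespace Pool.Agent.Helper3.QL

open Pool.Agent.Helper60.QL

theorem mem_bx {A z : R3} {Y : ℝ} : A ∈ bx z Y ↔ (z.1 ≤ A.1 ∧ A.1 ≤ z.1 + Y) ∧ (z.2.1 ≤ A.2.1 ∧ A.2.1 ≤ z.2.1 + Y) ∧ (z.2.2 ≤ A.2.2 ∧ A.2.2 ≤ z.2.2 + Y) := by
  unfold bx
  simp only [mem_prod, mem_Icc]

theorem mem_cb {A z : R3} {Y : ℝ} : A ∈ cb z Y ↔ |A.1 - z.1| ≤ Y ∧ |A.2.1 - z.2.1| ≤ Y ∧ |A.2.2 - z.2.2| ≤ Y := by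
  unfold cb
  simp only [mem_prod, mem_Icc, abs_le]
  constructor
  · rintro ⟨⟨h1, h2⟩, ⟨h3, h4⟩, h5, h6⟩
    refine ⟨⟨by linarith, by linarith⟩, ⟨by linarith, by linarith⟩, ⟨by linarith, by linarith⟩⟩
  · rintro ⟨⟨h1, h2⟩, ⟨h3, h4⟩, h5, h6⟩
    refine ⟨⟨by linarith, by linarith⟩, ⟨by linarith, by linarith⟩, ⟨by linarith, by linarith⟩⟩

theorem bx_meas (z : R3) (Y : ℝ) : MeasurableSet (bx z Y) :=
  measurableSet_Icc.prod (measurableSet_Icc.prod measurableSet_Icc)

theorem cb_meas (z : R3) (Y : ℝ) : MeasurableSet (cb z Y) :=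
  measurableSet_Icc.prod (measurableSet_Icc.prod measurableSet_Icc)

theorem bx_cb {z : R3} {Y Y' : ℝ} (h : Y ≤ Y') : bx z Y ⊆ cb z Y' := by
  intro A hA
  rw [mem_bx] at hA
  rw [mem_cb]
  obtain ⟨⟨h1, h2⟩, ⟨h3, h4⟩, h5, h6⟩ := hA
  refine ⟨abs_le.2 ⟨by linarith, by linarith⟩, abs_le.2 ⟨by linarith, by linarith⟩, abs_le.2 ⟨by linarith, by linarith⟩⟩

theorem cb_mono {z : R3} {Y Y' : ℝ} (h : Y ≤ Y') : cb z Y ⊆ cb z Y' := by
  intro A hA
  rw [mem_cb] at hA ⊢
  exact ⟨hA.1.trans h, hA.2.1.trans h, hA.2.2.trans h⟩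

theorem bx_vol (z : R3) {Y : ℝ} (hY : 0 ≤ Y) : volume (bx z Y) = ENNReal.ofReal (Y ^ 3) := by
  unfold bx
  have h : ∀ x : ℝ, x + Y - x = Y := fun x => by ring
  rw [Measure.volume_eq_prod, Measure.prod_prod, Measure.volume_eq_prod, Measure.prod_prod, Real.volume_Icc, Real.volume_Icc, Real.volume_Icc,
    h, h, h, ← ENNReal.ofReal_mul hY, ← ENNReal.ofReal_mul hY]
  congr 1
  ring

theorem cb_vol (z : R3) {Y : ℝ} (hY : 0 ≤ Y) : volume (cb z Y) = ENNReal.ofReal ((2 * Y) ^ 3) := by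
  unfold cb
  have h : ∀ x : ℝ, x + Y - (x - Y) = 2 * Y := fun x => by ring
  rw [Measure.volume_eq_prod, Measure.prod_prod, Measure.volume_eq_prod, Measure.prod_prod, Real.volume_Icc, Real.volume_Icc, Real.volume_Icc,
    h, h, h, ← ENNReal.ofReal_mul (by linarith), ← ENNReal.ofReal_mul (by linarith)]
  congr 1
  ring

theorem OM_meas (B X : ℝ) : MeasurableSet (OM B X) := by
  unfold OM
  have m1 : Measurable (fun A : R3 => A.1) := measurable_fst
  have m2 : Measurable (fun A : R3 => A.2.1) := measurable_fst.comp measurable_snd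
  have m3 : Measurable (fun A : R3 => A.2.2) := measurable_snd.comp measurable_snd
  refine (measurableSet_le measurable_const (m1.const_mul B)).inter ((measurableSet_le m1 measurable_const).inter
    ((measurableSet_le m2.abs measurable_const).inter ((measurableSet_le m3.abs measurable_const).inter
      (measurableSet_le measurable_const (((m2.pow_const 2).sub (m3.mul m1)).const_mul B)))))

theorem OM_mono {B B' X : ℝ} (hX : 0 ≤ X) (hB : 0 < B) (h : B ≤ B') : OM B X ⊆ OM B' X := by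
  rintro A ⟨h1, h2, h3, h4, h5⟩
  have hBX : B * X ≤ B' * X := mul_le_mul_of_nonneg_right h hX
  have hA : 0 ≤ A.1 := by
    by_contra hcon
    push Not at hcon
    have := mul_neg_of_pos_of_neg hB hcon
    linarith
  have hD : 0 ≤ A.2.1 ^ 2 - A.2.2 * A.1 := by
    by_contra hcon
    push Not at hcon
    have := mul_neg_of_pos_of_neg hB hcon
    have h0 : 0 ≤ X ^ 2 := sq_nonneg X
    linarith
  exact ⟨h1.trans (mul_le_mul_of_nonneg_right h hA), h2.trans hBX, h3.trans hBX, h4.trans hBX, h5.trans (mul_le_mul_of_nonneg_right h hD)⟩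

theorem OM_pos {B X : ℝ} (hX : 0 < X) (hB : 0 < B) {A : R3} (h : A ∈ OM B X) : 0 < A.1 := by
  by_contra hcon
  push Not at hcon
  have := mul_nonpos_of_nonneg_of_nonpos hB.le hcon
  linarith [h.1]

/-- a neighbourhood of `OM B X` is in `OM (2 B) X` -/
theorem OM_near {B X : ℝ} (hB : 1 ≤ B) (hX : 0 < X) {A A' : R3} (h : A ∈ OM B X) (h' : A' ∈ cb A (X / (16 * B ^ 2))) : A' ∈ OM (2 * B) X := by
  obtain ⟨h1, h2, h3, h4, h5⟩ := h
  rw [mem_cb] at h'
  obtain ⟨g1, g2, g3⟩ := h'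
  have hB0 : 0 < B := by linarith
  obtain ⟨c, hc⟩ : ∃ c, c = X / (16 * B ^ 2) := ⟨_, rfl⟩
  rw [← hc] at g1 g2 g3
  have hc0 : 0 < c := by rw [hc]; positivity
  have hcB : 16 * B ^ 2 * c = X := by rw [hc]; field_simp
  have hcB1 : 16 * B * c ≤ X := by
    have : B * c ≤ B ^ 2 * c := by
      have : B ≤ B ^ 2 := by nlinarith
      exact mul_le_mul_of_nonneg_right this hc0.le
    linarith
  have hc1 : 16 * c ≤ X := by
    have : c ≤ B * c := le_mul_of_one_le_left hc0.le hB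
    linarith
  have hBX : X ≤ B * X := le_mul_of_one_le_left hX.le hB
  have a1 := abs_le.1 g1
  have hA : 0 < A.1 := OM_pos hX hB0 ⟨h1, h2, h3, h4, h5⟩
  refine ⟨?_, ?_, ?_, ?_, ?_⟩
  · have e1 : B * A.1 - B * c ≤ B * A'.1 := by nlinarith [a1.1]
    linarith
  · linarith [a1.2]
  · have := abs_sub_abs_le_abs_sub A'.2.1 A.2.1
    linarith
  · have := abs_sub_abs_le_abs_sub A'.2.2 A.2.2
    linarith
  · have hD : |(A'.2.1 ^ 2 - A'.2.2 * A'.1) - (A.2.1 ^ 2 - A.2.2 * A.1)| ≤ 4 * (B * X) * c + 2 * c ^ 2 := by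
      have e : (A'.2.1 ^ 2 - A'.2.2 * A'.1) - (A.2.1 ^ 2 - A.2.2 * A.1) =
        (2 * A.2.1 * (A'.2.1 - A.2.1) + (A'.2.1 - A.2.1) ^ 2) - (A.2.2 * (A'.1 - A.1) + (A'.2.2 - A.2.2) * A.1 + (A'.2.2 - A.2.2) * (A'.1 - A.1)) := by ring
      rw [e]
      have b1 : |2 * A.2.1 * (A'.2.1 - A.2.1)| ≤ 2 * (B * X) * c := by
        rw [abs_mul, abs_mul, abs_of_pos (by norm_num : (0:ℝ) < 2)]
        gcongr
      have b2 : |(A'.2.1 - A.2.1) ^ 2| ≤ c ^ 2 := by
        rw [abs_pow]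
        gcongr
      have b3 : |A.2.2 * (A'.1 - A.1)| ≤ (B * X) * c := by
        rw [abs_mul]
        gcongr
      have b4 : |(A'.2.2 - A.2.2) * A.1| ≤ c * (B * X) := by
        rw [abs_mul, abs_of_pos hA]
        gcongr
      have b5 : |(A'.2.2 - A.2.2) * (A'.1 - A.1)| ≤ c * c := by
        rw [abs_mul]
        gcongr
      refine (abs_sub _ _).trans ?_
      have c1 := abs_add_le (2 * A.2.1 * (A'.2.1 - A.2.1)) ((A'.2.1 - A.2.1) ^ 2)
      have c2 := abs_add_three (A.2.2 * (A'.1 - A.1)) ((A'.2.2 - A.2.2) * A.1) ((A'.2.2 - A.2.2) * (A'.1 - A.1))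
      nlinarith
    have hD1 := (abs_le.1 hD).1
    have k1 : 2 * B * (4 * (B * X) * c + 2 * c ^ 2) ≤ X ^ 2 := by
      have e1 : 2 * B * (4 * (B * X) * c) = X * (8 * B ^ 2 * c) := by ring
      have e2 : 8 * B ^ 2 * c = X / 2 := by linarith
      have e3 : 2 * B * (2 * c ^ 2) = (4 * B * c) * c := by ring
      have e4 : (4 * B * c) * c ≤ (X / 4) * (X / 16) := by
        refine mul_le_mul (by linarith) (by linarith) hc0.le (by linarith)
      rw [mul_add, e1, e2, e3]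
      nlinarith
    have k2 : 2 * B * ((A.2.1 ^ 2 - A.2.2 * A.1) - (4 * (B * X) * c + 2 * c ^ 2)) ≤ 2 * B * (A'.2.1 ^ 2 - A'.2.2 * A'.1) :=
      mul_le_mul_of_nonneg_left (by linarith) (by linarith)
    nlinarith

theorem OM_vol {B X : ℝ} (hB : 1 ≤ B) (hX : 0 < X) : volume (OM B X) ≤ ENNReal.ofReal ((2 * (B * X)) ^ 3) := by
  have h : OM B X ⊆ cb (0, 0, 0) (B * X) := by
    intro A hA
    have hp := OM_pos hX (by linarith) hA
    obtain ⟨h1, h2, h3, h4, h5⟩ := hA
    rw [mem_cb]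
    simp only [sub_zero]
    refine ⟨?_, h3, h4⟩
    rwa [abs_of_pos hp]
  refine (measure_mono h).trans ?_
  rw [cb_vol _ (by positivity)]

/-- the double integral over a relation -/
theorem swap_rel {F : R3 → ENNReal} (hF : Measurable F) {K : Set R3} {R : Set (R3 × R3)} (hR : MeasurableSet R) :
    ∫⁻ z in K, ∫⁻ A in {A | (z, A) ∈ R}, F A = ∫⁻ A, F A * volume (K ∩ {z | (z, A) ∈ R}) := by
  have hm : Measurable (fun q : R3 × R3 => (R.indicator (fun q => F q.2) q)) := (hF.comp measurable_snd).indicator hR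
  have hz : ∀ z, MeasurableSet {A | (z, A) ∈ R} := fun z => measurable_prodMk_left hR
  have hA' : ∀ A, MeasurableSet {z | (z, A) ∈ R} := fun A => measurable_prodMk_right hR
  have h1 : ∀ z, ∫⁻ A in {A | (z, A) ∈ R}, F A = ∫⁻ A, R.indicator (fun q => F q.2) (z, A) := by
    intro z
    rw [← lintegral_indicator (hz z)]
    refine lintegral_congr fun A => ?_
    by_cases h : (z, A) ∈ R
    · rw [indicator_of_mem (by exact h), indicator_of_mem h]
    · rw [indicator_of_notMem (by exact h), indicator_of_notMem h]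
  simp only [h1]
  rw [lintegral_lintegral_swap (by exact hm.aemeasurable)]
  refine lintegral_congr fun A => ?_
  have h2 : ∀ z, R.indicator (fun q => F q.2) (z, A) = {z | (z, A) ∈ R}.indicator (fun _ => F A) z := by
    intro z
    by_cases h : (z, A) ∈ R
    · rw [indicator_of_mem h, indicator_of_mem (by exact h)]
    · rw [indicator_of_notMem h, indicator_of_notMem (by exact h)]
  simp only [h2]
  rw [lintegral_indicator (hA' A), lintegral_const, Measure.restrict_apply MeasurableSet.univ, univ_inter,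
    Measure.restrict_apply (hA' A), inter_comm]

theorem rel_bx_meas (Y : ℝ) : MeasurableSet {q : R3 × R3 | q.2 ∈ bx q.1 Y} := by
  simp only [mem_bx]
  have m : ∀ (p : R3 × R3 → ℝ) (p' : R3 × R3 → ℝ), Measurable p → Measurable p' → MeasurableSet {q | p q ≤ p' q} :=
    fun p p' h h' => measurableSet_le h h'
  refine ((m _ _ (by fun_prop) (by fun_prop)).inter (m _ _ (by fun_prop) (by fun_prop))).inter
    (((m _ _ (by fun_prop) (by fun_prop)).inter (m _ _ (by fun_prop) (by fun_prop))).inter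
    ((m _ _ (by fun_prop) (by fun_prop)).inter (m _ _ (by fun_prop) (by fun_prop))))

theorem rel_cb_meas (Y : ℝ) : MeasurableSet {q : R3 × R3 | q.2 ∈ cb q.1 Y} := by
  simp only [mem_cb]
  have m : ∀ (p : R3 × R3 → ℝ) (p' : R3 × R3 → ℝ), Measurable p → Measurable p' → MeasurableSet {q | p q ≤ p' q} :=
    fun p p' h h' => measurableSet_le h h'
  refine ((m _ _ (by fun_prop) (by fun_prop))).inter
    (((m _ _ (by fun_prop) (by fun_prop))).inter ((m _ _ (by fun_prop) (by fun_prop))))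

theorem meas_bx {F : R3 → ENNReal} (hF : Measurable F) (Y : ℝ) : Measurable (fun z => ∫⁻ A in bx z Y, F A) := by
  have hm : Measurable (fun q : R3 × R3 => ({q : R3 × R3 | q.2 ∈ bx q.1 Y}.indicator (fun q => F q.2) q)) :=
    (hF.comp measurable_snd).indicator (rel_bx_meas Y)
  have h1 : (fun z => ∫⁻ A in bx z Y, F A) = fun z => ∫⁻ A, {q : R3 × R3 | q.2 ∈ bx q.1 Y}.indicator (fun q => F q.2) (z, A) := by
    ext z
    rw [← lintegral_indicator (bx_meas z Y)]
    refine lintegral_congr fun A => ?_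
    by_cases h : A ∈ bx z Y
    · rw [indicator_of_mem h, indicator_of_mem (by exact h)]
    · rw [indicator_of_notMem h, indicator_of_notMem (by exact h)]
  rw [h1]
  exact hm.lintegral_prod_right'

theorem meas_cb {F : R3 → ENNReal} (hF : Measurable F) (Y : ℝ) : Measurable (fun z => ∫⁻ A in cb z Y, F A) := by
  have hm : Measurable (fun q : R3 × R3 => ({q : R3 × R3 | q.2 ∈ cb q.1 Y}.indicator (fun q => F q.2) q)) :=
    (hF.comp measurable_snd).indicator (rel_cb_meas Y)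
  have h1 : (fun z => ∫⁻ A in cb z Y, F A) = fun z => ∫⁻ A, {q : R3 × R3 | q.2 ∈ cb q.1 Y}.indicator (fun q => F q.2) (z, A) := by
    ext z
    rw [← lintegral_indicator (cb_meas z Y)]
    refine lintegral_congr fun A => ?_
    by_cases h : A ∈ cb z Y
    · rw [indicator_of_mem h, indicator_of_mem (by exact h)]
    · rw [indicator_of_notMem h, indicator_of_notMem (by exact h)]
  rw [h1]
  exact hm.lintegral_prod_right'

theorem avg_bx {F : R3 → ENNReal} (hF : Measurable F) {K K' : Set R3} (hK : MeasurableSet K) {Y : ℝ} (hY : 0 ≤ Y)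
    (h : ∀ A ∈ K, cb A Y ⊆ K') :
    ENNReal.ofReal (Y ^ 3) * (∫⁻ A in K, F A) ≤ ∫⁻ z in K', ∫⁻ A in bx z Y, F A := by
  have h1 := swap_rel hF (K := K') (rel_bx_meas Y)
  have h2 : ∀ z : R3, {A | (z, A) ∈ {q : R3 × R3 | q.2 ∈ bx q.1 Y}} = bx z Y := fun z => rfl
  simp only [h2] at h1
  rw [h1, ← lintegral_const_mul _ hF, ← lintegral_indicator hK]
  refine lintegral_mono fun A => ?_
  by_cases hA : A ∈ K
  · rw [indicator_of_mem hA, mul_comm]
    refine mul_le_mul' le_rfl ?_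
    have e : bx (A.1 - Y, A.2.1 - Y, A.2.2 - Y) Y ⊆ K' ∩ {z | (z, A) ∈ {q : R3 × R3 | q.2 ∈ bx q.1 Y}} := by
      intro z hz
      rw [mem_bx] at hz
      obtain ⟨⟨g1, g2⟩, ⟨g3, g4⟩, g5, g6⟩ := hz
      simp only at g1 g2 g3 g4 g5 g6
      refine ⟨h A hA ?_, ?_⟩
      · rw [mem_cb]
        refine ⟨abs_le.2 ⟨by linarith, by linarith⟩, abs_le.2 ⟨by linarith, by linarith⟩, abs_le.2 ⟨by linarith, by linarith⟩⟩
      · change A ∈ bx z Y
        rw [mem_bx]
        refine ⟨⟨by linarith, by linarith⟩, ⟨by linarith, by linarith⟩, by linarith, by linarith⟩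
    rw [← bx_vol (A.1 - Y, A.2.1 - Y, A.2.2 - Y) hY]
    exact measure_mono e
  · rw [indicator_of_notMem hA]
    exact bot_le

theorem avg_cb {F : R3 → ENNReal} (hF : Measurable F) {K K' : Set R3} (hK' : MeasurableSet K') {Y : ℝ} (hY : 0 ≤ Y)
    (h : ∀ A ∈ K, cb A Y ⊆ K') :
    ∫⁻ z in K, ∫⁻ A in cb z Y, F A ≤ ENNReal.ofReal ((2 * Y) ^ 3) * ∫⁻ A in K', F A := by
  have h1 := swap_rel hF (K := K) (rel_cb_meas Y)
  have h2 : ∀ z : R3, {A | (z, A) ∈ {q : R3 × R3 | q.2 ∈ cb q.1 Y}} = cb z Y := fun z => rfl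
  simp only [h2] at h1
  rw [h1, ← lintegral_const_mul _ hF, ← lintegral_indicator hK']
  have hsym : ∀ A z : R3, A ∈ cb z Y ↔ z ∈ cb A Y := by
    intro A z
    rw [mem_cb, mem_cb, abs_sub_comm A.1, abs_sub_comm A.2.1, abs_sub_comm A.2.2]
  refine lintegral_mono fun A => ?_
  by_cases hA : A ∈ K'
  · rw [indicator_of_mem hA, mul_comm]
    refine mul_le_mul' ?_ le_rfl
    rw [← cb_vol A hY]
    refine measure_mono ?_
    rintro z ⟨-, hz⟩
    exact (hsym A z).1 hz
  · rw [indicator_of_notMem hA]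
    have e : K ∩ {z | (z, A) ∈ {q : R3 × R3 | q.2 ∈ cb q.1 Y}} = ∅ := by
      ext z
      simp only [mem_inter_iff, mem_setOf_eq, mem_empty_iff_false, iff_false, not_and]
      intro hz hd
      exact hA (h z hz hd)
    rw [e, measure_empty, mul_zero]

end Pool.Agent.Helper3.QL
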