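import Pool.Agent.Helper3.QL.W1
import Pool.Agent.Helper3.QL.P1
import Pool.Agent.Helper3.QL.P2
import Pool.Agent.Helper77.QL.L5b

/-!
# QL-L6: the step from sectors of width `12/M^m` to sectors of width `12/M^m'`
-/

open MeasureTheory Real Set Filter Topology

set_option autoImplicit false

namespace Pool.Agent.Helper60.QL

open Pool.Agent.Helper22.AE
open Pool.Agent.Helper92.GC (dt tp Tq uu tt arc dd)
open Pool.Agent.Helper75.TW (m20)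
open Pool.Agent.Helper3.QL (cb_ball qf_meas OM_near OM_vol meas_cb avg_low avg_up cb_mono mink win cb_vol)

/-- the slopes of a sector -/
private theorem arc_slope3 {S : Finset (ℤ × ℤ)} {N j : ℕ} (hN : 0 < N) {k : ℤ × ℤ} (hk : k ∈ arc 0 S N j) (h2 : |tt 0 k| ≤ 2) :
    |tt 0 k - (12 * ((j : ℝ) + 1 / 2) / N - 6)| ≤ 6 / N := by
  have hN0 : (0 : ℝ) < N := by exact_mod_cast hN
  unfold arc at hk
  have h := (Finset.mem_filter.1 hk).2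
  have hpos : 0 ≤ (N : ℝ) * ((tt 0 k + 6) / 12) := by
    have := (abs_le.1 h2).1
    refine mul_nonneg hN0.le ?_
    linarith
  have h1 := Nat.floor_le hpos
  have h3 := Nat.lt_floor_add_one ((N : ℝ) * ((tt 0 k + 6) / 12))
  rw [h] at h1 h3
  have e1 : (j : ℝ) * 12 / N ≤ tt 0 k + 6 := by
    rw [div_le_iff₀ hN0]
    linarith
  have e2 : tt 0 k + 6 ≤ ((j : ℝ) + 1) * 12 / N := by
    rw [le_div_iff₀ hN0]
    linarith
  have e3 : 12 * ((j : ℝ) + 1 / 2) / N = (j : ℝ) * 12 / N + 6 / N := by ring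
  have e4 : ((j : ℝ) + 1) * 12 / N = (j : ℝ) * 12 / N + 6 / N + 6 / N := by ring
  rw [abs_le]
  constructor
  · linarith
  · linarith

private theorem II_empty3 (B X : ℝ) : II B X ∅ = 0 := by
  unfold II ff
  have h : ∀ a : ℤ × ℤ → ℂ, m20 ∅ a = 0 := by
    intro a
    unfold m20 tp
    simp
  simp only [h, ENNReal.ofReal_zero, lintegral_zero]

theorem step {ε lam B C₀ : ℝ} {M : ℕ} (_hε : 0 < ε) (hl : 1 ≤ lam) (hB : 1 ≤ B) (hM : 2 ≤ M) (hC₀ : 1 ≤ C₀) (hd : Dec20 ε lam M C₀) (n : ℕ) :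
    ∃ C B' E : ℝ, ∃ m₀ : ℕ, 1 ≤ C ∧ B ≤ B' ∧ 1 ≤ E ∧ ∀ (m m' r : ℕ) (X H κ : ℝ) (S : Finset (ℤ × ℤ)), m₀ ≤ m → m ≤ m' → 1 ≤ X → 1 ≤ H → C ≤ κ →
      Cone H lam S → C * κ * (M : ℝ) ^ (4 * m') ≤ X * H → C * κ * (M : ℝ) ^ (4 * m') ≤ (M : ℝ) ^ (5 * m) →
      II B X (arc 0 S (M ^ m) r) ^ (1 / 10 : ℝ) ≤ ENNReal.ofReal (C * κ * (M : ℝ) ^ (ε * (m' : ℝ))) *
        ∑ r' ∈ Finset.range (M ^ m'), (II B' X (arc 0 (arc 0 S (M ^ m) r) (M ^ m') r') +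
          ENNReal.ofReal (E * X ^ 4 * (S.card : ℝ) ^ 20 * κ⁻¹ ^ n)) ^ (1 / 10 : ℝ) := by
  obtain ⟨B₁, C₅, hB₁, hC₅, hup⟩ := II_up hB
  have hB₁1 : 1 ≤ B₁ := hB.trans hB₁
  obtain ⟨B₂, hB₂⟩ : ∃ B₂, B₂ = 2 * B₁ := ⟨_, rfl⟩
  have hB₂1 : 1 ≤ B₂ := by rw [hB₂]; linarith
  obtain ⟨B₃, hB₃⟩ : ∃ B₃, B₃ = 2 * B₂ := ⟨_, rfl⟩
  have hB₃1 : 1 ≤ B₃ := by rw [hB₃]; linarith
  obtain ⟨B', C₆, hB', hC₆, hlo⟩ := II_lo hB₃1
  obtain ⟨K, E, w₀, hK, hE, hw₀, hw₀1, hwin⟩ := win hl hB₃1 hM hC₀ hd n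
  have hM1 : (1 : ℝ) < M := by
    have : 1 < M := by omega
    exact_mod_cast this
  have hM0 : (0 : ℝ) < M := by linarith
  obtain ⟨m₀, hm₀⟩ := pow_unbounded_of_one_lt (6 / w₀) hM1
  have hC₅0 : 0 < C₅ := by linarith
  have hC₆0 : 0 < C₆ := by linarith
  have hK0 : 0 < K := by linarith
  have hE0 : 0 < E := by linarith
  refine ⟨4 + 16 * B₂ ^ 2 * K + 6 ^ 5 * K + K * (C₅ * C₆), B', E * B₂ ^ 3, m₀, ?_, ?_, ?_, ?_⟩
  · have : 0 ≤ 16 * B₂ ^ 2 * K + 6 ^ 5 * K + K * (C₅ * C₆) := by positivity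
    linarith
  · linarith
  · exact one_le_mul_of_one_le_of_one_le hE (one_le_pow₀ hB₂1)
  intro m m' r X H κ S hm hmm hX hH hκ hcone hc1 hc2
  obtain ⟨C, hC⟩ : ∃ C, C = 4 + 16 * B₂ ^ 2 * K + 6 ^ 5 * K + K * (C₅ * C₆) := ⟨_, rfl⟩
  rw [← hC] at hκ hc1 hc2 ⊢
  have hX0 : 0 < X := by linarith
  have hH0 : 0 < H := by linarith
  have hCa : 4 ≤ C := by
    have : 0 ≤ 16 * B₂ ^ 2 * K + 6 ^ 5 * K + K * (C₅ * C₆) := by positivity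
    linarith
  have hCb : 16 * B₂ ^ 2 * K ≤ C := by
    have : 0 ≤ 6 ^ 5 * K + K * (C₅ * C₆) := by positivity
    linarith
  have hCc : 6 ^ 5 * K ≤ C := by
    have : 0 ≤ 16 * B₂ ^ 2 * K + K * (C₅ * C₆) := by positivity
    linarith
  have hCd : K * (C₅ * C₆) ≤ C := by
    have : 0 ≤ 16 * B₂ ^ 2 * K + 6 ^ 5 * K := by positivity
    linarith
  have hκ4 : 4 ≤ κ := hCa.trans hκ
  have hκ0 : 0 < κ := by linarith
  have hκ1 : 1 ≤ κ := by linarith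
  -- the sector
  obtain ⟨S', hS'⟩ : ∃ S', S' = arc 0 S (M ^ m) r := ⟨_, rfl⟩
  rw [← hS']
  rcases S'.eq_empty_or_nonempty with hemp | hne
  · rw [hemp, II_empty3, ENNReal.zero_rpow_of_pos (by norm_num)]
    exact bot_le
  have hsub : S' ⊆ S := by
    rw [hS']
    unfold arc
    exact Finset.filter_subset _ _
  have hMm : 0 < M ^ m := pow_pos (by omega) m
  have hMmR : (0 : ℝ) < (M : ℝ) ^ m := by positivity
  obtain ⟨t₀, ht₀⟩ : ∃ t₀ : ℝ, t₀ = 12 * ((r : ℝ) + 1 / 2) / ((M ^ m : ℕ) : ℝ) - 6 := ⟨_, rfl⟩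
  obtain ⟨w, hw⟩ : ∃ w : ℝ, w = 6 / ((M ^ m : ℕ) : ℝ) := ⟨_, rfl⟩
  have hcast : ((M ^ m : ℕ) : ℝ) = (M : ℝ) ^ m := by push_cast; rfl
  have hw0 : 0 < w := by rw [hw, hcast]; positivity
  have hww : w ≤ w₀ := by
    rw [hw, hcast, div_le_iff₀ hMmR]
    have h1 : (M : ℝ) ^ m₀ ≤ (M : ℝ) ^ m := pow_le_pow_right₀ hM1.le hm
    rw [div_lt_iff₀ hw₀] at hm₀
    calc (6 : ℝ) ≤ (M : ℝ) ^ m₀ * w₀ := hm₀.le
      _ ≤ (M : ℝ) ^ m * w₀ := mul_le_mul_of_nonneg_right h1 hw₀.le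
      _ = w₀ * (M : ℝ) ^ m := mul_comm _ _
  have hkpos : ∀ k ∈ S, (0 : ℝ) < k.1 := fun k hk => lt_of_lt_of_le (div_pos hH0 (by linarith)) (hcone k hk).1
  have huu : ∀ k : ℤ × ℤ, uu 0 k = (k.1 : ℝ) := by
    intro k
    unfold uu
    ring
  have htt : ∀ k ∈ S, |tt 0 k| ≤ 2 := by
    intro k hk
    have h1 := hkpos k hk
    unfold tt
    rw [huu, abs_div, abs_of_pos h1, div_le_iff₀ h1]
    exact (hcone k hk).2.2
  have hslope : ∀ k ∈ S', |tt 0 k - t₀| ≤ w := by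
    intro k hk
    rw [ht₀, hw]
    rw [hS'] at hk
    exact arc_slope3 hMm hk (htt k (hsub (by rw [hS']; exact hk)))
  have ht₀3 : |t₀| ≤ 3 := by
    obtain ⟨k, hk⟩ := hne
    have h1 := abs_le.1 (hslope k hk)
    have h2 := abs_le.1 (htt k (hsub hk))
    rw [abs_le]
    constructor
    · linarith
    · linarith
  have hSw : ∀ k ∈ S', H / lam ≤ uu 0 k ∧ uu 0 k ≤ lam * H ∧ |tt 0 k - t₀| ≤ w := by
    intro k hk
    have h1 := hcone k (hsub hk)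
    rw [huu]
    exact ⟨h1.1, h1.2.1, hslope k hk⟩
  have hposZ : ∀ S'' ⊆ S', ∀ k ∈ S'', 0 < k.1 := by
    intro S'' hs k hk
    have := hkpos k (hsub (hs hk))
    exact_mod_cast this
  -- the radius
  obtain ⟨ρ, hρ⟩ : ∃ ρ : ℝ, ρ = K * (M : ℝ) ^ (4 * m') / H := ⟨_, rfl⟩
  have hρ0 : 0 < ρ := by rw [hρ]; positivity
  have hρH : K * (M : ℝ) ^ (4 * m') = H * ρ := by rw [hρ]; field_simp
  have hP0 : 0 < κ * (M : ℝ) ^ (4 * m') := by positivity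
  have hκρX : κ * ρ ≤ X / (16 * B₂ ^ 2) := by
    rw [le_div_iff₀ (by positivity), hρ]
    have e : κ * (K * (M : ℝ) ^ (4 * m') / H) * (16 * B₂ ^ 2) = (16 * B₂ ^ 2 * K) * (κ * (M : ℝ) ^ (4 * m')) / H := by ring
    rw [e, div_le_iff₀ hH0]
    calc (16 * B₂ ^ 2 * K) * (κ * (M : ℝ) ^ (4 * m')) ≤ C * (κ * (M : ℝ) ^ (4 * m')) := mul_le_mul_of_nonneg_right hCb hP0.le
      _ = C * κ * (M : ℝ) ^ (4 * m') := by ring
      _ ≤ X * H := hc1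
  have hcond : κ * ρ * H * w ^ 5 ≤ 1 := by
    have e : κ * ρ * H * w ^ 5 = (6 ^ 5 * K) * (κ * (M : ℝ) ^ (4 * m')) / (M : ℝ) ^ (5 * m) := by
      rw [hρ, hw, hcast, pow_mul' (M : ℝ) 5 m]
      field_simp
    rw [e, div_le_one (by positivity)]
    calc (6 ^ 5 * K) * (κ * (M : ℝ) ^ (4 * m')) ≤ C * (κ * (M : ℝ) ^ (4 * m')) := mul_le_mul_of_nonneg_right hCc hP0.le
      _ = C * κ * (M : ℝ) ^ (4 * m') := by ring
      _ ≤ _ := hc2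
  have hρκ : ρ ≤ κ * ρ := le_mul_of_one_le_left hρ0.le hκ1
  have hball2 : ∀ A ∈ OM B₁ X, Metric.closedBall A ρ ⊆ OM B₂ X := by
    intro A hA A' hA'
    rw [← cb_ball] at hA'
    rw [hB₂]
    refine OM_near hB₁1 hX0 hA (cb_mono ?_ hA')
    refine (hρκ.trans hκρX).trans ?_
    refine div_le_div_of_nonneg_left hX0.le (by positivity) ?_
    have : B₁ ^ 2 ≤ B₂ ^ 2 := pow_le_pow_left₀ (by linarith) (by rw [hB₂]; linarith) 2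
    linarith
  have hball3 : ∀ z ∈ OM B₂ X, Metric.closedBall z (κ * ρ) ⊆ OM B₃ X := by
    intro A hA A' hA'
    rw [← cb_ball] at hA'
    rw [hB₃]
    exact OM_near hB₂1 hX0 hA (cb_mono hκρX hA')
  -- the functions
  obtain ⟨F, hF⟩ : ∃ F : Finset (ℤ × ℤ) → R3 → ENNReal, F = fun S'' A => ENNReal.ofReal (qf t₀ S'' A) := ⟨_, rfl⟩
  have hFm : ∀ S'', Measurable (F S'') := by
    intro S''
    rw [hF]
    exact (qf_meas t₀ S'').ennreal_ofReal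
  obtain ⟨Sj, hSj⟩ : ∃ Sj : ℕ → Finset (ℤ × ℤ), Sj = fun j => arc 0 S' (M ^ m') j := ⟨_, rfl⟩
  have hSjs : ∀ j, Sj j ⊆ S' := by
    intro j
    rw [hSj]
    unfold arc
    exact Finset.filter_subset _ _
  obtain ⟨q1, hq1⟩ : ∃ q1 : ℝ, q1 = (S'.card : ℝ) ^ 20 := ⟨_, rfl⟩
  obtain ⟨q2, hq2⟩ : ∃ q2 : ℝ, q2 = (S.card : ℝ) ^ 20 := ⟨_, rfl⟩
  have hq10 : 0 ≤ q1 := by rw [hq1]; exact pow_nonneg (Nat.cast_nonneg _) 20
  have hq12 : q1 ≤ q2 := by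
    rw [hq1, hq2]
    exact pow_le_pow_left₀ (Nat.cast_nonneg _) (by exact_mod_cast Finset.card_le_card hsub) 20
  have hq20 : 0 ≤ q2 := hq10.trans hq12
  obtain ⟨tl, htl⟩ : ∃ tl : ℝ, tl = E * ρ ^ 3 * q1 * κ⁻¹ ^ n := ⟨_, rfl⟩
  have htl0 : 0 ≤ tl := by rw [htl]; positivity
  rw [← hq2]
  have hV : ∀ (Y : ℝ), 0 ≤ Y → ∀ z : R3, volume (Metric.closedBall z Y) = ENNReal.ofReal ((2 * Y) ^ 3) := by
    intro Y hY z
    rw [← cb_ball, cb_vol z hY]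
  -- averaging
  have a1 : ENNReal.ofReal ((2 * ρ) ^ 3) * (∫⁻ A in OM B₁ X, F S' A) ≤ ∫⁻ z in OM B₂ X, ∫⁻ A in Metric.closedBall z ρ, F S' A :=
    avg_low volume (hFm S') (Pool.Agent.Helper3.QL.OM_meas B₁ X) (hV ρ hρ0.le) hball2
  have a2 : ∀ j, ∫⁻ z in OM B₂ X, ∫⁻ A in Metric.closedBall z (κ * ρ), F (Sj j) A ≤ ENNReal.ofReal ((2 * (κ * ρ)) ^ 3) * ∫⁻ A in OM B₃ X, F (Sj j) A :=
    fun j => avg_up volume (hFm _) (Pool.Agent.Helper3.QL.OM_meas B₃ X) (hV (κ * ρ) (by positivity)) hball3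
  -- the window
  have hwz : ∀ z ∈ OM B₂ X, (∫⁻ A in Metric.closedBall z ρ, F S' A) ^ (1 / 10 : ℝ) ≤ ENNReal.ofReal (K * (M : ℝ) ^ (ε * (m' : ℝ))) *
      ∑ j ∈ Finset.range (M ^ m'), ((∫⁻ A in Metric.closedBall z (κ * ρ), F (Sj j) A) + ENNReal.ofReal tl) ^ (1 / 10 : ℝ) := by
    intro z hz
    have := hwin m' X H ρ κ w t₀ z S' hX0 hH0 hρ0 hκ4 hw0 hww ht₀3 (hball3 z hz) hSw hcond hρH.le
    rw [hF, hSj, htl, hq1]
    exact this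
  obtain ⟨K', hK'⟩ : ∃ K' : ENNReal, K' = ENNReal.ofReal (K * (M : ℝ) ^ (ε * (m' : ℝ))) := ⟨_, rfl⟩
  rw [← hK'] at hwz
  obtain ⟨g, hg⟩ : ∃ g : ℕ → R3 → ENNReal, g = fun j z => (∫⁻ A in Metric.closedBall z (κ * ρ), F (Sj j) A) + ENNReal.ofReal tl := ⟨_, rfl⟩
  have hgm : ∀ j, Measurable (g j) := by
    intro j
    rw [hg]
    have := meas_cb (hFm (Sj j)) (κ * ρ)
    simp only [cb_ball] at this
    exact this.add_const _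
  have hmink : (∫⁻ z in OM B₂ X, ∫⁻ A in Metric.closedBall z ρ, F S' A) ^ (1 / 10 : ℝ) ≤
      K' * ∑ j ∈ Finset.range (M ^ m'), (∫⁻ z in OM B₂ X, g j z) ^ (1 / 10 : ℝ) := by
    have h1 : ∫⁻ z in OM B₂ X, ∫⁻ A in Metric.closedBall z ρ, F S' A ≤
        ∫⁻ z in OM B₂ X, K' ^ (10 : ℝ) * (∑ j ∈ Finset.range (M ^ m'), (g j z) ^ (1 / 10 : ℝ)) ^ (10 : ℝ) := by
      refine setLIntegral_mono' (Pool.Agent.Helper3.QL.OM_meas B₂ X) fun z hz => ?_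
      rw [← ENNReal.mul_rpow_of_nonneg _ _ (by norm_num : (0 : ℝ) ≤ 10)]
      have h2 := ENNReal.rpow_le_rpow (hwz z hz) (by norm_num : (0 : ℝ) ≤ 10)
      rw [← ENNReal.rpow_mul] at h2
      norm_num at h2
      rw [hg]
      norm_num
      exact h2
    have h3 : Measurable (fun z => (∑ j ∈ Finset.range (M ^ m'), (g j z) ^ (1 / 10 : ℝ)) ^ (10 : ℝ)) :=
      (Finset.measurable_fun_sum _ fun j _ => (hgm j).pow_const _).pow_const _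
    rw [lintegral_const_mul _ h3] at h1
    refine (ENNReal.rpow_le_rpow h1 (by norm_num : (0 : ℝ) ≤ 1 / 10)).trans ?_
    rw [ENNReal.mul_rpow_of_nonneg _ _ (by norm_num : (0 : ℝ) ≤ 1 / 10), ← ENNReal.rpow_mul]
    have e : (10 : ℝ) * (1 / 10) = 1 := by norm_num
    rw [e, ENNReal.rpow_one]
    exact mul_le_mul' le_rfl (mink _ _ g fun j _ => hgm j)
  -- the integrals of the g j
  have hgi : ∀ j, ∫⁻ z in OM B₂ X, g j z ≤ ENNReal.ofReal ((2 * (κ * ρ)) ^ 3) * (∫⁻ A in OM B₃ X, F (Sj j) A) +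
      ENNReal.ofReal (tl * (2 * (B₂ * X)) ^ 3) := by
    intro j
    rw [hg]
    simp only
    rw [lintegral_add_right _ measurable_const, lintegral_const, Measure.restrict_apply MeasurableSet.univ, univ_inter]
    refine add_le_add (a2 j) ?_
    rw [ENNReal.ofReal_mul htl0]
    exact mul_le_mul' le_rfl (OM_vol hB₂1 hX0)
  -- the constants
  obtain ⟨c₁, hc₁⟩ : ∃ c₁ : ℝ, c₁ = C₅ * X / (2 * ρ) ^ 3 := ⟨_, rfl⟩
  have hc₁0 : 0 < c₁ := by rw [hc₁]; positivity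
  have b1 : II B X S' ≤ ENNReal.ofReal c₁ * ∫⁻ z in OM B₂ X, ∫⁻ A in Metric.closedBall z ρ, F S' A := by
    have h1 := hup X t₀ S' hX0 ht₀3 (hposZ S' (Finset.Subset.refl _))
    have h2 : ENNReal.ofReal (C₅ * X) = ENNReal.ofReal c₁ * ENNReal.ofReal ((2 * ρ) ^ 3) := by
      rw [← ENNReal.ofReal_mul hc₁0.le, hc₁]
      congr 1
      field_simp
    rw [h2, mul_assoc] at h1
    refine h1.trans (mul_le_mul' le_rfl ?_)
    rw [hF] at a1 ⊢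
    exact a1
  have b2 : ∀ j, ENNReal.ofReal c₁ * ∫⁻ z in OM B₂ X, g j z ≤ ENNReal.ofReal (C₅ * C₆ * κ ^ 3) *
      (II B' X (Sj j) + ENNReal.ofReal (E * B₂ ^ 3 * X ^ 4 * q2 * κ⁻¹ ^ n)) := by
    intro j
    refine (mul_le_mul' le_rfl (hgi j)).trans ?_
    rw [mul_add, mul_add, ← mul_assoc, ← ENNReal.ofReal_mul hc₁0.le, ← ENNReal.ofReal_mul hc₁0.le, ← ENNReal.ofReal_mul (by positivity : 0 ≤ C₅ * C₆ * κ ^ 3)]
    have e1 : c₁ * (2 * (κ * ρ)) ^ 3 = (C₅ * κ ^ 3) * X := by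
      rw [hc₁]
      field_simp
    have e2 : c₁ * (tl * (2 * (B₂ * X)) ^ 3) = C₅ * (E * B₂ ^ 3 * X ^ 4 * q1 * κ⁻¹ ^ n) := by
      rw [hc₁, htl]
      field_simp
    refine add_le_add ?_ (ENNReal.ofReal_le_ofReal ?_)
    · rw [e1, ENNReal.ofReal_mul (by positivity : 0 ≤ C₅ * κ ^ 3), mul_assoc]
      have h1 := hlo X t₀ (Sj j) hX0 ht₀3 (hposZ _ (hSjs j))
      have h2 : ENNReal.ofReal (C₅ * C₆ * κ ^ 3) = ENNReal.ofReal (C₅ * κ ^ 3) * ENNReal.ofReal C₆ := by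
        rw [← ENNReal.ofReal_mul (by positivity : 0 ≤ C₅ * κ ^ 3)]
        congr 1
        ring
      rw [h2, mul_assoc]
      refine mul_le_mul' le_rfl ?_
      rw [hF]
      exact h1
    · rw [e2]
      have h2 : 1 ≤ C₆ * κ ^ 3 := one_le_mul_of_one_le_of_one_le hC₆ (one_le_pow₀ hκ1)
      obtain ⟨q, hq⟩ : ∃ q, q = E * B₂ ^ 3 * X ^ 4 * q2 * κ⁻¹ ^ n := ⟨_, rfl⟩
      have hq0 : 0 ≤ q := by rw [hq]; positivity
      rw [← hq]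
      calc C₅ * (E * B₂ ^ 3 * X ^ 4 * q1 * κ⁻¹ ^ n) ≤ C₅ * q := by
            rw [hq]
            refine mul_le_mul_of_nonneg_left ?_ hC₅0.le
            refine mul_le_mul_of_nonneg_right ?_ (by positivity)
            exact mul_le_mul_of_nonneg_left hq12 (by positivity)
        _ ≤ C₅ * ((C₆ * κ ^ 3) * q) := mul_le_mul_of_nonneg_left (le_mul_of_one_le_left hq0 h2) hC₅0.le
        _ = C₅ * C₆ * κ ^ 3 * q := by ring
  have hQ : (C₅ * C₆ * κ ^ 3) ^ (1 / 10 : ℝ) ≤ C₅ * C₆ * κ := by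
    have h1 : 1 ≤ C₅ * C₆ := one_le_mul_of_one_le_of_one_le hC₅ hC₆
    have h2 : 1 ≤ C₅ * C₆ * κ := one_le_mul_of_one_le_of_one_le h1 hκ1
    have h3 : C₅ * C₆ * κ ^ 3 ≤ (C₅ * C₆ * κ) ^ 10 := by
      calc C₅ * C₆ * κ ^ 3 ≤ (C₅ * C₆) ^ 3 * κ ^ 3 := by
            refine mul_le_mul_of_nonneg_right ?_ (by positivity)
            exact le_self_pow₀ h1 (by norm_num)
        _ = (C₅ * C₆ * κ) ^ 3 := by ring
        _ ≤ (C₅ * C₆ * κ) ^ 10 := pow_le_pow_right₀ h2 (by norm_num)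
    calc (C₅ * C₆ * κ ^ 3) ^ (1 / 10 : ℝ) ≤ ((C₅ * C₆ * κ) ^ 10) ^ (1 / 10 : ℝ) := rpow_le_rpow (by positivity) h3 (by norm_num)
      _ = C₅ * C₆ * κ := by
          rw [← rpow_natCast, ← rpow_mul (by positivity)]
          norm_num
  have hMe : 0 ≤ (M : ℝ) ^ (ε * (m' : ℝ)) := rpow_nonneg hM0.le _
  calc II B X S' ^ (1 / 10 : ℝ) ≤ (ENNReal.ofReal c₁ * ∫⁻ z in OM B₂ X, ∫⁻ A in Metric.closedBall z ρ, F S' A) ^ (1 / 10 : ℝ) :=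
        ENNReal.rpow_le_rpow b1 (by norm_num)
    _ = ENNReal.ofReal c₁ ^ (1 / 10 : ℝ) * (∫⁻ z in OM B₂ X, ∫⁻ A in Metric.closedBall z ρ, F S' A) ^ (1 / 10 : ℝ) :=
        ENNReal.mul_rpow_of_nonneg _ _ (by norm_num)
    _ ≤ ENNReal.ofReal c₁ ^ (1 / 10 : ℝ) * (K' * ∑ j ∈ Finset.range (M ^ m'), (∫⁻ z in OM B₂ X, g j z) ^ (1 / 10 : ℝ)) :=
        mul_le_mul' le_rfl hmink
    _ = K' * ∑ j ∈ Finset.range (M ^ m'), (ENNReal.ofReal c₁ * ∫⁻ z in OM B₂ X, g j z) ^ (1 / 10 : ℝ) := by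
        simp only [ENNReal.mul_rpow_of_nonneg _ _ (by norm_num : (0 : ℝ) ≤ 1 / 10)]
        rw [← Finset.mul_sum]
        ring
    _ ≤ K' * ∑ j ∈ Finset.range (M ^ m'), (ENNReal.ofReal (C₅ * C₆ * κ ^ 3) *
          (II B' X (Sj j) + ENNReal.ofReal (E * B₂ ^ 3 * X ^ 4 * q2 * κ⁻¹ ^ n))) ^ (1 / 10 : ℝ) :=
        mul_le_mul' le_rfl (Finset.sum_le_sum fun j _ => ENNReal.rpow_le_rpow (b2 j) (by norm_num))
    _ = (K' * ENNReal.ofReal (C₅ * C₆ * κ ^ 3) ^ (1 / 10 : ℝ)) * ∑ j ∈ Finset.range (M ^ m'),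
          (II B' X (Sj j) + ENNReal.ofReal (E * B₂ ^ 3 * X ^ 4 * q2 * κ⁻¹ ^ n)) ^ (1 / 10 : ℝ) := by
        simp only [ENNReal.mul_rpow_of_nonneg _ _ (by norm_num : (0 : ℝ) ≤ 1 / 10)]
        rw [← Finset.mul_sum]
        ring
    _ ≤ _ := by
        rw [hSj]
        refine mul_le_mul' ?_ le_rfl
        rw [hK', ENNReal.ofReal_rpow_of_nonneg (by positivity) (by norm_num), ← ENNReal.ofReal_mul (by positivity)]
        refine ENNReal.ofReal_le_ofReal ?_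
        calc K * (M : ℝ) ^ (ε * (m' : ℝ)) * (C₅ * C₆ * κ ^ 3) ^ (1 / 10 : ℝ) ≤ K * (M : ℝ) ^ (ε * (m' : ℝ)) * (C₅ * C₆ * κ) :=
              mul_le_mul_of_nonneg_left hQ (by positivity)
          _ = (K * (C₅ * C₆)) * (κ * (M : ℝ) ^ (ε * (m' : ℝ))) := by ring
          _ ≤ C * (κ * (M : ℝ) ^ (ε * (m' : ℝ))) := mul_le_mul_of_nonneg_right hCd (by positivity)
          _ = C * κ * (M : ℝ) ^ (ε * (m' : ℝ)) := by ring

end Pool.Agent.Helper60.QL
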